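import Pool.Agent.Q68.Perm.AbsDiff

/-!
# The permanent of `[|j - k|]` modulo an odd prime

For every odd prime `p`, `2 per[|j - k|]_{1 ≤ j, k ≤ p} + 1 ≡ 0 (mod p)`.
-/

set_option autoImplicit false

namespace Pool.Agent.Results.MP_cf7092_nt.PermanentAbsoluteDifference

theorem result (p : ℕ) (hp : p.Prime) (hp2 : p ≠ 2) :
    (p : ℤ) ∣ 2 * (Matrix.of (fun j k : Fin p =>
      |(((j : ℕ) : ℤ) + 1) - (((k : ℕ) : ℤ) + 1)|)).permanent + 1 := by
  have h := Pool.Agent.Q68.Perm.per_abs_fin p hp hp2 0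
  simpa using h

end Pool.Agent.Results.MP_cf7092_nt.PermanentAbsoluteDifference
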